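import Pool.Agent.H896Z.NC.Main

/-!
# The minimum multicut is not bounded by a constant multiple of the network coding rate
-/

namespace Pool.Agent.Results.MP_cbd396_lc.AUnboundedRatio

open scoped ENNReal
open Pool.Agent.H896Z.NC

/-- For every constant `C` there is a finite acyclic multiple-unicast network whose minimum
multicut exceeds `C` times its network coding rate. -/
theorem result (C : ℕ) : ∃ (V : Type) (_ : Finite V) (N : Network V),
    N.Acyclic ∧ (∀ i, N.s i ≠ N.t i) ∧ (C : ℝ≥0∞) * N.R < (N.MC : ℝ≥0∞) :=
  main C

end Pool.Agent.Results.MP_cbd396_lc.AUnboundedRatio
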